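import Pool.Agent.Lib.MP_f87a07_co.Machine

/-!
Every friendly swap from a described configuration leads to a described configuration.
-/

set_option autoImplicit false

namespace Pool.Agent.Lib.MP_f87a07_co

open Function

variable {m L N : ℕ}

/-- the end of side `s` holds one of the two tokens of the mover -/
def EndOk (w : Fin (N + 1) ≃ Obj m L) (s : Bool) (i : Fin m) : Prop :=
  ∃ t, w (endp N s) = .inl t ∧ pair s i t

/-- side conditions of a stage -/
def Ok (w : Fin (N + 1) ≃ Obj m L) : Stage m N → Prop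
  | .s0 => True
  | .s1 _ => True
  | .s2 _ => True
  | .s3 none p => ∃ t, w p = .inl t
  | .s3 (some (s, i)) p =>
      dist s p ≤ 1 ∧ ∀ p', dist s p' ≤ dist s p → ∃ t, w p' = .inl t ∧ pair s i t
  | .s4 s i => EndOk w s i
  | .s5 s i p => EndOk w s i ∧ 2 ≤ dist s p ∧ frO (some (s, i)) (w p)

/-- the conclusion of the step lemma -/
def Next (D : Tok m → ℕ) (τ : Pos m N → Per m L) : Prop :=
  ∃ (w' : Fin (N + 1) ≃ Obj m L) (D' : Tok m → ℕ) (st' : Stage m N),
    Valid w' D' ∧ Ok w' st' ∧ τ = St w' st' ∧ DMove L D D'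

variable {w : Fin (N + 1) ≃ Obj m L} {D : Tok m → ℕ}

lemma Next.same (hv : Valid w D) {st : Stage m N} (ho : Ok w st) {τ : Pos m N → Per m L}
    (h : τ = St w st) : Next D τ := ⟨w, D, st, hv, ho, h, Or.inl rfl⟩

/-- a friend of a keyed mover preceded only by tokens is a token -/
lemma friend_tok (hv : Valid w D) (hL : L % 2 = 0) {s : Bool} {i : Fin m} {p : Fin (N + 1)}
    (hf : frO (some (s, i)) (w p)) (h : ∀ p', dist s p' < dist s p → ∃ t, w p' = .inl t) :
    ∃ t, w p = .inl t ∧ pair s i t := by
  rcases hp : w p with t | j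
  · rw [hp] at hf; exact ⟨t, rfl, hf⟩
  · rw [hp] at hf; exact absurd hf (hv.first_color hL hp h)

lemma not_three (hv : Valid w D) (hL : L % 2 = 0) {s : Bool} {i : Fin m} {p1 p2 : Fin (N + 1)}
    (h0 : EndOk w s i) (d1 : dist s p1 = 1) (d2 : dist s p2 = 2)
    (f1 : frO (some (s, i)) (w p1)) (f2 : frO (some (s, i)) (w p2)) : False := by
  obtain ⟨t0, e0, a0⟩ := h0
  obtain ⟨t1, e1, a1⟩ := friend_tok hv hL f1 (fun p' hp' => by
    have : p' = endp N s := dist_eq_zero.1 (by omega)
    exact ⟨t0, this ▸ e0⟩)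
  obtain ⟨t2, e2, a2⟩ := friend_tok hv hL f2 (fun p' hp' => by
    by_cases h : dist s p' = 0
    · have : p' = endp N s := dist_eq_zero.1 h
      exact ⟨t0, this ▸ e0⟩
    · have : p' = p1 := dist_inj (s := s) (by omega)
      exact ⟨t1, this ▸ e1⟩)
  have d0 := dist_endp (N := N) s
  rcases pair_three a0 a1 a2 with h | h | h
  · have := w.injective (e0.trans (h ▸ e1.symm))
    rw [← this] at d1; omega
  · have := w.injective (e0.trans (h ▸ e2.symm))
    rw [← this] at d2; omega
  · have := w.injective (e1.trans (h ▸ e2.symm))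
    rw [← this] at d2; omega

lemma step_s0 (hv : Valid w D) {a b : Pos m N} {ν : Mv m} (hx : xadj a b)
    (ha : St w .s0 a = .inr (.c ν)) : Next D (St w .s0 ∘ Equiv.swap a b) := by
  have : a = .inr (.c ν) := by
    rcases a with a | a <;> simp_all [St, Base]
  subst this
  rcases b with b | _ | _ | _ | _ <;> try exact absurd hx id
  exact Next.same hv (st := .s1 ν) trivial (t01 w ν)

lemma step_s1 (hv : Valid w D) {μ : Mv m} {a b : Pos m N} {ν : Mv m} (hx : xadj a b)
    (ha : St w (.s1 μ) a = .inr (.c ν)) (hb : fr ν (St w (.s1 μ) b)) :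
    Next D (St w (.s1 μ) ∘ Equiv.swap a b) := by
  have : (a = .inr (.c ν) ∧ ν ≠ μ) ∨ (a = .inr .hub ∧ ν = μ) := by
    simp only [St] at ha
    split_ifs at ha <;> rcases a with a | a <;> simp_all [Base]
  rcases this with ⟨rfl, hne⟩ | ⟨rfl, rfl⟩
  · rcases b with b | _ | _ | _ | _ <;> try exact absurd hx id
    simp [St, fr] at hb
  · rcases b with b | _ | μ' | μ' | _ <;> try exact absurd hx id
    · by_cases h : μ' = ν
      · subst h
        exact Next.same hv (st := .s0) trivial (back (t01 w μ'))
      · simp [St, fr, h, Base] at hb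
    · have : μ' = ν := by simpa [St, fr, Base] using hb
      subst this
      exact Next.same hv (st := .s2 μ') trivial (t12 w μ')

lemma step_s2 (hv : Valid w D) (hL : L % 2 = 0) {μ : Mv m} {a b : Pos m N} {ν : Mv m}
    (hx : xadj a b) (ha : St w (.s2 μ) a = .inr (.c ν)) (hb : fr ν (St w (.s2 μ) b)) :
    Next D (St w (.s2 μ) ∘ Equiv.swap a b) := by
  have : (a = .inr (.c ν) ∧ ν ≠ μ) ∨ (a = .inr (.d μ) ∧ ν = μ) := by
    simp only [St] at ha
    split_ifs at ha <;> rcases a with a | a <;> simp_all [Base]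
  rcases this with ⟨rfl, hne⟩ | ⟨rfl, rfl⟩
  · rcases b with b | _ | _ | _ | _ <;> try exact absurd hx id
    simp [St, fr] at hb
    exact absurd hb.symm hne
  · rcases b with p | _ | μ' | μ' | _ <;> try exact absurd hx id
    · have hf : frO ν (w p) := by simpa [St, fr, Base] using hb
      refine Next.same hv (st := .s3 ν p) ?_ (t23 w ν p)
      rcases ν with _ | ⟨s, i⟩
      · rcases hp : w p with t | j
        · exact ⟨t, hp⟩
        · rw [hp] at hf; exact absurd hf id
      · have h0 : dist s p = 0 := hx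
        refine ⟨by omega, fun p' hp' => ?_⟩
        have : p' = p := dist_inj (s := s) (by omega)
        subst this
        exact friend_tok hv hL hf (fun p'' h => by omega)
    · exact Next.same hv (st := .s1 ν) trivial (back (t12 w ν))

lemma step_s3 (hv : Valid w D) (hL : L % 2 = 0) {μ : Mv m} {p : Fin (N + 1)}
    (ho : Ok w (.s3 μ p)) {a b : Pos m N} {ν : Mv m}
    (hx : xadj a b) (ha : St w (.s3 μ p) a = .inr (.c ν)) (hb : fr ν (St w (.s3 μ p) b)) :
    Next D (St w (.s3 μ p) ∘ Equiv.swap a b) := by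
  have : (a = .inr (.c ν) ∧ ν ≠ μ) ∨ (a = .inl p ∧ ν = μ) := by
    simp only [St] at ha
    split_ifs at ha <;> rcases a with a | a <;> simp_all [Base]
  rcases this with ⟨rfl, hne⟩ | ⟨rfl, rfl⟩
  · rcases b with b | _ | _ | _ | _ <;> try exact absurd hx id
    simp [St, fr] at hb
    exact absurd hb.symm hne
  · rcases b with p' | _ | μ' | μ' | s' <;> try exact absurd hx id
    · have hnb : nb p p' := hx
      have hne := nb_ne hnb
      have hf : frO ν (w p') := by simpa [St, fr, Base, hne.symm] using hb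
      rcases ν with _ | ⟨s, i⟩
      · obtain ⟨t, ht⟩ := ho
        rcases hp' : w p' with t' | j
        · refine ⟨wswap w p p', D, .s3 none p', (hv.swap_tok hnb ht hp').1, ⟨t, ?_⟩,
            t33 w none hne, Or.inl rfl⟩
          simp [wswap_apply, ht]
        · rw [hp'] at hf; exact absurd hf id
      · obtain ⟨h1, h2⟩ := ho
        obtain ⟨t, ht, ht2⟩ := h2 p le_rfl
        have hd := nb_dist s hnb
        have k : dist s p' ≤ 1 := by
          by_contra hc
          obtain ⟨t0, e0⟩ := h2 (endp N s) (by rw [dist_endp]; omega)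
          exact not_three hv hL (p1 := p) (p2 := p') ⟨t0, e0⟩ (by omega) (by omega)
            (by rw [ht]; exact ht2) hf
        obtain ⟨t', ht', ht2'⟩ := friend_tok hv hL hf (fun p'' h => by
          obtain ⟨u, hu, _⟩ := h2 p'' (by omega)
          exact ⟨u, hu⟩)
        refine ⟨wswap w p p', D, .s3 (some (s, i)) p', (hv.swap_tok hnb ht ht').1, ⟨k, ?_⟩,
          t33 w _ hne, Or.inl rfl⟩
        intro p'' hp''
        by_cases e1 : p'' = p
        · subst e1; exact ⟨t', by simp [wswap_apply, ht'], ht2'⟩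
        · by_cases e2 : p'' = p'
          · subst e2; exact ⟨t, by simp [wswap_apply, ht], ht2⟩
          · exfalso
            have a1 : dist s p'' ≠ dist s p := fun h => e1 (dist_inj h)
            have a2 : dist s p'' ≠ dist s p' := fun h => e2 (dist_inj h)
            omega
    · by_cases h : μ' = ν
      · subst h
        exact Next.same hv (st := .s2 μ') trivial (back (t23 w μ' p))
      · simp [St, fr, h, Base] at hb
    · obtain ⟨i, rfl⟩ : ∃ i, ν = some (s', i) := by simpa [St, fr, Base] using hb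
      obtain ⟨h1, h2⟩ := ho
      have h3 : dist s' p ≠ 1 := hx
      have : p = endp N s' := dist_eq_zero.1 (by omega)
      subst this
      exact Next.same hv (st := .s4 s' i) (h2 _ le_rfl) (t34 w s' i)

lemma step_s4 (hv : Valid w D) {s : Bool} {i : Fin m}
    (ho : Ok w (.s4 s i)) {a b : Pos m N} {ν : Mv m}
    (hx : xadj a b) (ha : St w (.s4 s i) a = .inr (.c ν)) (hb : fr ν (St w (.s4 s i) b)) :
    Next D (St w (.s4 s i) ∘ Equiv.swap a b) := by
  have : (a = .inr (.c ν) ∧ ν ≠ some (s, i)) ∨ (a = .inr (.q s) ∧ ν = some (s, i)) := by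
    simp only [St] at ha
    split_ifs at ha <;> rcases a with a | a <;> simp_all [Base]
  rcases this with ⟨rfl, hne⟩ | ⟨rfl, rfl⟩
  · rcases b with b | _ | _ | _ | _ <;> try exact absurd hx id
    simp [St, fr] at hb
    exact absurd hb.symm hne
  · rcases b with p | _ | μ' | μ' | s' <;> try exact absurd hx id
    have h3 : dist s p ≠ 1 := hx
    by_cases h : p = endp N s
    · subst h
      refine Next.same hv (st := .s3 (some (s, i)) (endp N s)) ⟨by rw [dist_endp]; omega, ?_⟩
        (back (t34 w s i))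
      intro p' hp'
      rw [dist_endp] at hp'
      have : p' = endp N s := dist_eq_zero.1 (by omega)
      subst this
      exact ho
    · have hf : frO (some (s, i)) (w p) := by simpa [St, fr, Base, h] using hb
      have h0 : dist s p ≠ 0 := fun e => h (dist_eq_zero.1 e)
      exact Next.same hv (st := .s5 s i p) ⟨ho, by omega, hf⟩ (t45 w s i h)

lemma step_s5 (hv : Valid w D) (hL : L % 2 = 0) {s : Bool} {i : Fin m} {p : Fin (N + 1)}
    (ho : Ok w (.s5 s i p)) {a b : Pos m N} {ν : Mv m}
    (hx : xadj a b) (ha : St w (.s5 s i p) a = .inr (.c ν)) (hb : fr ν (St w (.s5 s i p) b)) :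
    Next D (St w (.s5 s i p) ∘ Equiv.swap a b) := by
  obtain ⟨h1, h2, h3⟩ := ho
  have hpe : p ≠ endp N s := fun e => by rw [e, dist_endp] at h2; omega
  have : (a = .inr (.c ν) ∧ ν ≠ some (s, i)) ∨ (a = .inl p ∧ ν = some (s, i)) := by
    simp only [St] at ha
    split_ifs at ha <;> rcases a with a | a <;> simp_all [Base]
  rcases this with ⟨rfl, hne⟩ | ⟨rfl, rfl⟩
  · rcases b with b | _ | _ | _ | _ <;> try exact absurd hx id
    simp [St, fr] at hb
    exact absurd hb.symm hne
  · rcases b with p' | _ | μ' | μ' | s' <;> try exact absurd hx id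
    · have hnb : nb p p' := hx
      have hne := nb_ne hnb
      have hd := nb_dist s hnb
      have hpe' : p' ≠ endp N s := fun e => by rw [e, dist_endp] at hd; omega
      have hf : frO (some (s, i)) (w p') := by simpa [St, fr, Base, hne.symm, hpe'] using hb
      have k : 2 ≤ dist s p' := by
        by_contra hc
        exact not_three hv hL (p1 := p') (p2 := p) h1 (by omega) (by omega) hf h3
      have ok : Ok (wswap w p p') (.s5 s i p') := by
        refine ⟨?_, k, ?_⟩
        · obtain ⟨t0, e0, a0⟩ := h1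
          refine ⟨t0, ?_, a0⟩
          rw [wswap_apply, Equiv.swap_apply_of_ne_of_ne hpe.symm hpe'.symm, e0]
        · simpa [wswap_apply] using h3
      have tt := t55 w s i hne hpe hpe'
      obtain ⟨t0, e0, a0⟩ := h1
      have he := hv.end_digit e0
      rcases hp : w p with t | j <;> rcases hp' : w p' with t' | j'
      · exact ⟨_, D, _, (hv.swap_tok hnb hp hp').1, ok, tt, Or.inl rfl⟩
      · rw [hp] at h3; rw [hp'] at hf
        have tn : t ≠ t0 := fun e => hpe (w.injective (by rw [hp, e0, e]))
        rcases hnb with h | h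
        · have := hv.swap_up h hp hp'
          exact ⟨_, _, _, this.2, ok, tt,
            Or.inr ⟨s, i, t, t0, j', h3, a0, tn, he, hf, Or.inl ⟨this.1, rfl⟩⟩⟩
        · have := hv.swap_down h hp' hp
          rw [wswap_comm] at this
          exact ⟨_, _, _, this.2, ok, tt,
            Or.inr ⟨s, i, t, t0, j', h3, a0, tn, he, hf, Or.inr ⟨this.1, rfl⟩⟩⟩
      · rw [hp] at h3; rw [hp'] at hf
        have tn : t' ≠ t0 := fun e => hpe' (w.injective (by rw [hp', e0, e]))
        rcases hnb with h | h
        · have := hv.swap_down h hp hp'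
          exact ⟨_, _, _, this.2, ok, tt,
            Or.inr ⟨s, i, t', t0, j, hf, a0, tn, he, h3, Or.inr ⟨this.1, rfl⟩⟩⟩
        · have := hv.swap_up h hp' hp
          rw [wswap_comm] at this
          exact ⟨_, _, _, this.2, ok, tt,
            Or.inr ⟨s, i, t', t0, j, hf, a0, tn, he, h3, Or.inl ⟨this.1, rfl⟩⟩⟩
      · rw [hp] at h3; rw [hp'] at hf
        exact absurd ((show color j = s from h3).trans (show color j' = s from hf).symm)
          (hv.fill_color hnb hp hp')
    · by_cases h : μ' = some (s, i)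
      · subst h
        have : dist s p = 0 := hx
        omega
      · simp [St, fr, h, Base] at hb
    · by_cases h : s' = s
      · subst h
        exact Next.same hv (st := .s4 s' i) h1 (back (t45 w s' i hpe))
      · simp [St, fr, h, Base] at hb
        exact absurd hb.symm h

lemma step_aux (hv : Valid w D) (hL : L % 2 = 0) {st : Stage m N} (ho : Ok w st)
    {a b : Pos m N} {ν : Mv m} (hx : xadj a b) (ha : St w st a = .inr (.c ν))
    (hb : fr ν (St w st b)) : Next D (St w st ∘ Equiv.swap a b) := by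
  cases st with
  | s0 => exact step_s0 hv hx ha
  | s1 μ => exact step_s1 hv hx ha hb
  | s2 μ => exact step_s2 hv hL hx ha hb
  | s3 μ p => exact step_s3 hv hL ho hx ha hb
  | s4 s i => exact step_s4 hv ho hx ha hb
  | s5 s i p => exact step_s5 hv hL ho hx ha hb

lemma step_next (hv : Valid w D) (hL : L % 2 = 0) {st : Stage m N} (ho : Ok w st)
    {τ : Pos m N → Per m L} (h : Step (St w st) τ) : Next D τ := by
  obtain ⟨a, b, hx, ⟨ν, ha, hb⟩ | ⟨ν, hb, ha⟩, rfl⟩ := h
  · exact step_aux hv hL ho hx ha hb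
  · rw [Equiv.swap_comm]
    exact step_aux hv hL ho (xadj_symm hx) hb ha

/-- chains of `k` friendly swaps -/
inductive Steps : ℕ → (Pos m N → Per m L) → (Pos m N → Per m L) → Prop
  | refl (σ : Pos m N → Per m L) : Steps 0 σ σ
  | cons {k : ℕ} {σ τ ρ : Pos m N → Per m L} : Step σ τ → Steps k τ ρ → Steps (k + 1) σ ρ

lemma steps_bound (hL : L % 2 = 0) {k : ℕ} {σ ρ : Pos m N → Per m L} (h : Steps k σ ρ) :
    ∀ (w : Fin (N + 1) ≃ Obj m L) (D : Tok m → ℕ) (st : Stage m N), Valid w D → Ok w st →
      σ = St w st → ∃ (w' : Fin (N + 1) ≃ Obj m L) (D' : Tok m → ℕ) (st' : Stage m N),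
        Valid w' D' ∧ ρ = St w' st' ∧
          |psi L (lev D) (m - 1) - psi L (lev D') (m - 1)| ≤ k := by
  induction h with
  | refl σ => exact fun w D st hv _ e => ⟨w, D, st, hv, e, by simp⟩
  | cons hs _ ih =>
    intro w D st hv ho e
    subst e
    obtain ⟨w1, D1, st1, hv1, ho1, e1, hm⟩ := step_next hv hL ho hs
    obtain ⟨w2, D2, st2, hv2, e2, hb⟩ := ih w1 D1 st1 hv1 ho1 e1
    refine ⟨w2, D2, st2, hv2, e2, ?_⟩
    have := hm.lip hL
    rw [abs_le] at this hb ⊢
    push_cast
    constructor <;> linarith [this.1, this.2, hb.1, hb.2]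

lemma Valid.unique {D' : Tok m → ℕ} (hv : Valid w D) (hv' : Valid w D') : D = D' := by
  funext t
  exact hv.digit_eq (hv'.le t) (hv'.dig t)

lemma base_eq_St {w' : Fin (N + 1) ≃ Obj m L} {st : Stage m N} (h : Base w = St w' st) :
    w = w' := by
  have h1 := congrFun h (.inr .hub)
  cases st <;> simp [St, Base] at h1
  ext p : 1
  have := congrFun h (.inl p)
  simpa [St, Base] using this

theorem lower_bound (hL : L % 2 = 0) {w' : Fin (N + 1) ≃ Obj m L} {D' : Tok m → ℕ}
    (hv : Valid w D) (hv' : Valid w' D') {k : ℕ} (h : Steps k (Base w) (Base w')) :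
    |psi L (lev D) (m - 1) - psi L (lev D') (m - 1)| ≤ k := by
  obtain ⟨w2, D2, st2, hv2, e2, hb⟩ := steps_bound hL h w D .s0 hv trivial rfl
  have := base_eq_St e2
  subst this
  rw [hv'.unique hv2]
  exact hb

end Pool.Agent.Lib.MP_f87a07_co
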