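import Pool.Agent.Lib.MP_f87a07_co.Potential

/-!
The two graphs and the description of the reachable configurations.
-/

set_option autoImplicit false

namespace Pool.Agent.Lib.MP_f87a07_co

open Function

/-- movers: the passer `none` and the keyed movers -/
abbrev Mv (m : ℕ) := Option (Bool × Fin m)

/-- extra positions, also used as the names of the persons who start there -/
inductive Ext (m : ℕ)
  | hub
  | c (μ : Mv m)
  | d (μ : Mv m)
  | q (s : Bool)
  deriving DecidableEq

/-- positions -/
abbrev Pos (m N : ℕ) := Fin (N + 1) ⊕ Ext m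

/-- persons -/
abbrev Per (m L : ℕ) := Obj m L ⊕ Ext m

variable {m L N : ℕ}

/-- corridor objects that are friends of a mover -/
def frO : Mv m → Obj m L → Prop
  | none, .inl _ => True
  | none, .inr _ => False
  | some (s, i), .inl t => pair s i t
  | some (s, _), .inr j => color j = s

/-- friends of a mover -/
def fr (μ : Mv m) : Per m L → Prop
  | .inl o => frO μ o
  | .inr .hub => True
  | .inr (.c _) => False
  | .inr (.d ν) => ν = μ
  | .inr (.q s) => ∃ i, μ = some (s, i)

/-- friendship -/
def yadj (x y : Per m L) : Prop :=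
  (∃ μ, x = .inr (.c μ) ∧ fr μ y) ∨ (∃ μ, y = .inr (.c μ) ∧ fr μ x)

/-- corridor positions adjacent to the door of a mover -/
def dOk : Mv m → Fin (N + 1) → Prop
  | none, _ => True
  | some (s, _), p => dist s p = 0

/-- adjacency of positions -/
def xadj : Pos m N → Pos m N → Prop
  | .inl p, .inl p' => nb p p'
  | .inl p, .inr (.d μ) => dOk μ p
  | .inr (.d μ), .inl p => dOk μ p
  | .inl p, .inr (.q s) => dist s p ≠ 1
  | .inr (.q s), .inl p => dist s p ≠ 1
  | .inr (.c _), .inr .hub => True
  | .inr .hub, .inr (.c _) => True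
  | .inr (.d _), .inr .hub => True
  | .inr .hub, .inr (.d _) => True
  | _, _ => False

lemma xadj_symm {a b : Pos m N} (h : xadj a b) : xadj b a := by
  rcases a with a | _ | _ | _ | _ <;> rcases b with b | _ | _ | _ | _ <;>
    first | exact h | exact nb_symm h

lemma xadj_irrefl (a : Pos m N) : ¬ xadj a a := by
  rcases a with a | _ | _ | _ | _
  · exact fun h => nb_ne h rfl
  all_goals exact fun h => h

lemma yadj_symm {a b : Per m L} (h : yadj a b) : yadj b a := Or.symm h

lemma yadj_irrefl (a : Per m L) : ¬ yadj a a := by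
  rintro (⟨μ, rfl, h⟩ | ⟨μ, rfl, h⟩) <;> exact h

/-- one friendly swap -/
def Step (σ τ : Pos m N → Per m L) : Prop :=
  ∃ a b, xadj a b ∧ yadj (σ a) (σ b) ∧ τ = σ ∘ Equiv.swap a b

lemma Step.symm {σ τ : Pos m N → Per m L} (h : Step σ τ) : Step τ σ := by
  obtain ⟨a, b, h1, h2, rfl⟩ := h
  refine ⟨a, b, h1, ?_, ?_⟩
  · simpa using yadj_symm h2
  · funext x; simp

/-- how far the active mover has gone -/
inductive Stage (m N : ℕ)
  | s0
  | s1 (μ : Mv m)
  | s2 (μ : Mv m)
  | s3 (μ : Mv m) (p : Fin (N + 1))
  | s4 (s : Bool) (i : Fin m)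
  | s5 (s : Bool) (i : Fin m) (p : Fin (N + 1))

/-- the configuration at rest -/
def Base (w : Fin (N + 1) ≃ Obj m L) : Pos m N → Per m L := Sum.map w id

/-- the configuration for a word and a stage -/
def St (w : Fin (N + 1) ≃ Obj m L) : Stage m N → Pos m N → Per m L
  | .s0, x => Base w x
  | .s1 μ, x => if x = .inr (.c μ) then .inr .hub else if x = .inr .hub then .inr (.c μ)
      else Base w x
  | .s2 μ, x => if x = .inr (.c μ) then .inr .hub else if x = .inr .hub then .inr (.d μ)
      else if x = .inr (.d μ) then .inr (.c μ) else Base w x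
  | .s3 μ p, x => if x = .inr (.c μ) then .inr .hub else if x = .inr .hub then .inr (.d μ)
      else if x = .inr (.d μ) then .inl (w p) else if x = .inl p then .inr (.c μ) else Base w x
  | .s4 s i, x => if x = .inr (.c (some (s, i))) then .inr .hub
      else if x = .inr .hub then .inr (.d (some (s, i)))
      else if x = .inr (.d (some (s, i))) then .inl (w (endp N s))
      else if x = .inl (endp N s) then .inr (.q s)
      else if x = .inr (.q s) then .inr (.c (some (s, i))) else Base w x
  | .s5 s i p, x => if x = .inr (.c (some (s, i))) then .inr .hub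
      else if x = .inr .hub then .inr (.d (some (s, i)))
      else if x = .inr (.d (some (s, i))) then .inl (w (endp N s))
      else if x = .inl (endp N s) then .inr (.q s)
      else if x = .inr (.q s) then .inl (w p)
      else if x = .inl p then .inr (.c (some (s, i))) else Base w x

variable (w : Fin (N + 1) ≃ Obj m L)

lemma t01 (μ : Mv m) :
    St w .s0 ∘ Equiv.swap (.inr (.c μ)) (.inr .hub) = St w (.s1 μ) := by
  funext x
  simp only [comp, Equiv.swap_apply_def, St]
  split_ifs <;> simp_all [Base]

lemma t12 (μ : Mv m) :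
    St w (.s1 μ) ∘ Equiv.swap (.inr .hub) (.inr (.d μ)) = St w (.s2 μ) := by
  funext x
  simp only [comp, Equiv.swap_apply_def, St]
  split_ifs <;> simp_all [Base]

lemma t23 (μ : Mv m) (p : Fin (N + 1)) :
    St w (.s2 μ) ∘ Equiv.swap (.inr (.d μ)) (.inl p) = St w (.s3 μ p) := by
  funext x
  simp only [comp, Equiv.swap_apply_def, St]
  split_ifs <;> simp_all [Base]

lemma t33 (μ : Mv m) {p p' : Fin (N + 1)} (h : p ≠ p') :
    St w (.s3 μ p) ∘ Equiv.swap (.inl p) (.inl p') = St (wswap w p p') (.s3 μ p') := by
  funext x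
  have h' := h.symm
  rcases x with x | x
  · simp only [comp, Equiv.swap_apply_def, St]
    split_ifs <;> simp_all [Base, wswap_apply, Equiv.swap_apply_def]
  · simp only [comp, Equiv.swap_apply_def, St]
    split_ifs <;> simp_all [Base, wswap_apply]

lemma t34 (s : Bool) (i : Fin m) :
    St w (.s3 (some (s, i)) (endp N s)) ∘ Equiv.swap (.inl (endp N s)) (.inr (.q s)) =
      St w (.s4 s i) := by
  funext x
  simp only [comp, Equiv.swap_apply_def, St]
  split_ifs <;> simp_all [Base]

lemma t45 (s : Bool) (i : Fin m) {p : Fin (N + 1)} (h : p ≠ endp N s) :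
    St w (.s4 s i) ∘ Equiv.swap (.inr (.q s)) (.inl p) = St w (.s5 s i p) := by
  funext x
  have h' := h.symm
  simp only [comp, Equiv.swap_apply_def, St]
  split_ifs <;> simp_all [Base]

lemma t55 (s : Bool) (i : Fin m) {p p' : Fin (N + 1)} (h : p ≠ p') (h1 : p ≠ endp N s)
    (h2 : p' ≠ endp N s) :
    St w (.s5 s i p) ∘ Equiv.swap (.inl p) (.inl p') = St (wswap w p p') (.s5 s i p') := by
  funext x
  have h' := h.symm
  have h1' := h1.symm
  have h2' := h2.symm
  rcases x with x | x
  · simp only [comp, Equiv.swap_apply_def, St]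
    split_ifs <;> simp_all [Base, wswap_apply, Equiv.swap_apply_def]
  · simp only [comp, Equiv.swap_apply_def, St]
    split_ifs <;> simp_all [Base, wswap_apply, Equiv.swap_apply_def]

lemma back {α β : Type*} [DecidableEq α] {f g : α → β} {a b : α}
    (h : f ∘ Equiv.swap a b = g) : g ∘ Equiv.swap b a = f := by
  subst h
  funext x
  simp [Equiv.swap_comm b a]

end Pool.Agent.Lib.MP_f87a07_co
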