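import Pool.Agent.Lib.MP_f87a07_co.Words

/-!
The potential: a function of the digit vector that changes by at most one per move.
-/

set_option autoImplicit false

namespace Pool.Agent.Lib.MP_f87a07_co

open Function

variable {m L : ℕ}

/-- the key token of the mover of side `s` and level `i` -/
def key (s : Bool) (i : Fin m) : Tok m :=
  if h : i.val = 0 then .inl s else .inr ⟨i.val - 1, by have := i.isLt; omega⟩

/-- the two tokens that are friends of the mover of side `s` and level `i` -/
def pair (s : Bool) (i : Fin m) (t : Tok m) : Prop := t = .inr i ∨ t = key s i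

lemma key_ne (s : Bool) (i : Fin m) : key s i ≠ .inr i := by
  unfold key
  split_ifs with h
  · simp
  · simp [Fin.ext_iff]; omega

lemma pair_three {s : Bool} {i : Fin m} {a b c : Tok m} (ha : pair s i a) (hb : pair s i b)
    (hc : pair s i c) : a = b ∨ a = c ∨ b = c := by
  rcases ha with rfl | rfl <;> rcases hb with rfl | rfl <;> rcases hc with rfl | rfl <;> simp

/-- allowed changes of the digit vector -/
def DMove (L : ℕ) (D D' : Tok m → ℕ) : Prop :=
  D' = D ∨ ∃ (s : Bool) (i : Fin m) (t t' : Tok m) (j : Fin L), pair s i t ∧ pair s i t' ∧ t ≠ t' ∧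
    D t' = ext L s ∧ color j = s ∧
    ((D t = j.val ∧ D' = update D t (j.val + 1)) ∨ (D t = j.val + 1 ∧ D' = update D t j.val))

/-- the digits of the levels -/
def lev (D : Tok m → ℕ) (k : ℕ) : ℕ := if h : k < m then D (.inr ⟨k, h⟩) else 0

/-- total length at level `i` -/
def MM (L i : ℕ) : ℤ := (L : ℤ) * ((L : ℤ) - 1) ^ i

/-- the potential -/
def psi (L : ℕ) (E : ℕ → ℕ) : ℕ → ℤ
  | 0 => E 0
  | i + 1 => if E (i + 1) = 0 then 0 else if E (i + 1) = L then MM L (i + 1) else
      ((E (i + 1) : ℤ) - 1) * MM L i +
        (if E (i + 1) % 2 = 0 then psi L E i else MM L i - psi L E i)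

lemma psi_congr {E E' : ℕ → ℕ} : ∀ i, (∀ k ≤ i, E k = E' k) → psi L E i = psi L E' i
  | 0, h => by simp [psi, h 0 le_rfl]
  | i + 1, h => by
      have := psi_congr i (fun k hk => h k (by omega))
      simp only [psi, h (i + 1) le_rfl, this]

lemma psi_lip {E E' : ℕ → ℕ} {i : ℕ} (h : ∀ k, i < k → E k = E' k)
    (h0 : |psi L E i - psi L E' i| ≤ 1) : ∀ k, i ≤ k → |psi L E k - psi L E' k| ≤ 1 := by
  intro k hk
  induction k, hk using Nat.le_induction with
  | base => exact h0
  | succ k hk ih =>
    simp only [psi, ← h (k + 1) (by omega)]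
    split_ifs
    · simp
    · simp
    · simpa using ih
    · rw [abs_le] at ih ⊢; constructor <;> linarith [ih.1, ih.2]

lemma psi_zero {E : ℕ → ℕ} : ∀ i, E i = 0 → psi L E i = 0
  | 0, h => by simp [psi, h]
  | i + 1, h => by simp [psi, h]

lemma psi_top {E : ℕ → ℕ} (hL : 0 < L) : ∀ i, E i = L → psi L E i = MM L i
  | 0, h => by simp [psi, h, MM]
  | i + 1, h => by
      have : L ≠ 0 := by omega
      simp [psi, h, this]

lemma psi_ext {E : ℕ → ℕ} (hL : 0 < L) {s : Bool} {i : ℕ} (h : E i = ext L s) :
    psi L E i = if s then MM L i else 0 := by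
  cases s
  · simpa using psi_zero i (by simpa [ext] using h)
  · simpa using psi_top hL i (by simpa [ext] using h)

lemma psi_cross {E E' : ℕ → ℕ} (hL : L % 2 = 0) {i : ℕ} {j : Fin L}
    (h : ∀ k ≤ i, E k = E' k) (hk : E i = ext L (color j))
    (h1 : E (i + 1) = j.val) (h2 : E' (i + 1) = j.val + 1) :
    psi L E (i + 1) = psi L E' (i + 1) := by
  have hj := j.isLt
  have a := psi_ext (by omega) hk
  have b := psi_congr (L := L) i h
  have hM : MM L (i + 1) = ((L : ℤ) - 1) * MM L i := by simp [MM]; ring
  simp only [psi, h1, h2, ← b, a, color, decide_eq_true_eq]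
  have c : ¬ (j.val = L) := by omega
  have d : ¬ (j.val + 1 = 0) := by omega
  simp only [c, d, if_false]
  by_cases e : j.val % 2 = 0
  · have e' : ¬ ((j.val + 1) % 2 = 0) := by omega
    have e'' : ¬ (j.val + 1 = L) := by omega
    simp only [e, e', e'', if_true, if_false]
    split_ifs with f
    · simp [f]
    · push_cast; ring
  · have e' : (j.val + 1) % 2 = 0 := by omega
    have f : ¬ (j.val = 0) := by omega
    simp only [e, e', f, if_true, if_false]
    split_ifs with g
    · have : (L : ℤ) = j.val + 1 := by omega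
      rw [hM, this]; ring
    · push_cast; ring

lemma lev_update_inl (D : Tok m → ℕ) (s : Bool) (v : ℕ) :
    lev (update D (.inl s) v) = lev D := by
  funext k
  unfold lev
  split_ifs
  · simp
  · rfl

lemma lev_update_ne (D : Tok m → ℕ) (i : Fin m) (v : ℕ) {k : ℕ} (hk : k ≠ i.val) :
    lev (update D (.inr i) v) k = lev D k := by
  unfold lev
  split_ifs
  · rw [update_of_ne]; simp [Fin.ext_iff, hk]
  · rfl

lemma lev_val (D : Tok m → ℕ) (i : Fin m) : lev D i.val = D (.inr i) := by
  simp [lev]

lemma up_lip (hL : L % 2 = 0) {D : Tok m → ℕ} {s : Bool} {i : Fin m} {t t' : Tok m} {j : Fin L}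
    (ht : pair s i t) (ht' : pair s i t') (hne : t ≠ t') (he : D t' = ext L s) (hc : color j = s)
    (hD : D t = j.val) :
    |psi L (lev D) (m - 1) - psi L (lev (update D t (j.val + 1))) (m - 1)| ≤ 1 := by
  have hi := i.isLt
  have hj := j.isLt
  rcases ht with rfl | rfl
  · have ht'' : t' = key s i := by
      rcases ht' with h | h
      · exact absurd h.symm hne
      · exact h
    subst ht''
    apply psi_lip (i := i.val) (fun k hk => (lev_update_ne D i _ (by omega)).symm) _ _ (by omega)
    rcases hi0 : i.val with _ | i'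
    · have a := lev_val D i
      have b := lev_val (update D (.inr i) (j.val + 1)) i
      rw [hi0] at a b
      simp [psi, a, b, hD]
    · have a := lev_val D i
      have b := lev_val (update D (.inr i) (j.val + 1)) i
      rw [hi0] at a b
      have c : lev D i' = ext L (color j) := by
        rw [hc, ← he]
        have : i' < m := by omega
        simp [lev, key, hi0, this]
      have e : psi L (lev D) (i' + 1) =
          psi L (lev (update D (.inr i) (j.val + 1))) (i' + 1) :=
        psi_cross hL (fun k hk => (lev_update_ne D i _ (by omega)).symm) c (by rw [a, hD])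
          (by rw [b]; simp)
      show |psi L (lev D) (i' + 1) - psi L (lev (update D (.inr i) (j.val + 1))) (i' + 1)| ≤ 1
      rw [e]
      simp
  · have ht'' : t' = .inr i := by
      rcases ht' with h | h
      · exact h
      · exact absurd h.symm hne
    subst ht''
    unfold key
    split_ifs with h0
    · simp [lev_update_inl]
    · apply psi_lip (i := i.val) (fun k hk => (lev_update_ne D _ _ (by simp; omega)).symm) _ _
        (by omega)
      have a : lev D i.val = ext L s := by rw [lev_val, he]
      have b : lev (update D (.inr ⟨i.val - 1, by omega⟩) (j.val + 1)) i.val = ext L s := by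
        rw [lev_update_ne _ _ _ (by simp; omega), a]
      rw [psi_ext (by omega) a, psi_ext (by omega) b]
      simp

lemma DMove.lip (hL : L % 2 = 0) {D D' : Tok m → ℕ} (h : DMove L D D') :
    |psi L (lev D) (m - 1) - psi L (lev D') (m - 1)| ≤ 1 := by
  rcases h with rfl | ⟨s, i, t, t', j, ht, ht', hne, he, hc, ⟨hD, rfl⟩ | ⟨hD, rfl⟩⟩
  · simp
  · exact up_lip hL ht ht' hne he hc hD
  · have := up_lip hL (D := update D t j.val) ht ht' hne (by rw [update_of_ne hne.symm, he]) hc
      (by simp)
    rw [update_idem, ← hD, update_eq_self, abs_sub_comm] at this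
    exact this

end Pool.Agent.Lib.MP_f87a07_co
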