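import Pool.Agent.Lib.MP_f87a07_co.Invariant

/-!
The slowest token can be taken from the left end to the right end.
-/

set_option autoImplicit false

namespace Pool.Agent.Lib.MP_f87a07_co

open Function

variable {m L N : ℕ}

/-- reachability between configurations -/
abbrev Rch (σ τ : Pos m N → Per m L) : Prop := Relation.ReflTransGen Step σ τ

lemma Rch.symm' {σ τ : Pos m N → Per m L} (h : Rch σ τ) : Rch τ σ := by
  induction h with
  | refl => exact Relation.ReflTransGen.refl
  | tail _ hs ih => exact Relation.ReflTransGen.head hs.symm ih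

lemma mk_step {σ τ : Pos m N → Per m L} {a b : Pos m N} {ν : Mv m} (hx : xadj a b)
    (ha : σ a = .inr (.c ν)) (hb : fr ν (σ b)) (h : σ ∘ Equiv.swap a b = τ) : Rch σ τ :=
  Relation.ReflTransGen.single ⟨a, b, hx, Or.inl ⟨ν, ha, hb⟩, h.symm⟩

variable {w : Fin (N + 1) ≃ Obj m L} {D : Tok m → ℕ}

lemma rch_s3 (w : Fin (N + 1) ≃ Obj m L) (μ : Mv m) (p : Fin (N + 1)) (h : dOk μ p)
    (hf : frO μ (w p)) : Rch (Base w) (St w (.s3 μ p)) := by
  have a : Rch (St w .s0) (St w (.s1 μ)) :=
    mk_step (ν := μ) (by trivial) (by simp [St, Base]) (by simp [St, Base, fr]) (t01 w μ)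
  have b : Rch (St w (.s1 μ)) (St w (.s2 μ)) :=
    mk_step (ν := μ) (by trivial) (by simp [St]) (by simp [St, Base, fr]) (t12 w μ)
  have c : Rch (St w (.s2 μ)) (St w (.s3 μ p)) :=
    mk_step (ν := μ) (by exact h) (by simp [St]) (by simpa [St, Base, fr] using hf) (t23 w μ p)
  exact (a.trans b).trans c

lemma rch_s5 (w : Fin (N + 1) ≃ Obj m L) (s : Bool) (i : Fin m) (p : Fin (N + 1))
    (he : EndOk w s i) (h : 2 ≤ dist s p) (hf : frO (some (s, i)) (w p)) :
    Rch (Base w) (St w (.s5 s i p)) := by
  have hpe : p ≠ endp N s := fun e => by rw [e, dist_endp] at h; omega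
  obtain ⟨t, ht, ht2⟩ := he
  have a := rch_s3 w (some (s, i)) (endp N s) (dist_endp s) (by rw [ht]; exact ht2)
  have b : Rch (St w (.s3 (some (s, i)) (endp N s))) (St w (.s4 s i)) :=
    mk_step (ν := some (s, i)) (by show dist s (endp N s) ≠ 1; rw [dist_endp]; omega)
      (by simp [St]) (by simp [St, Base, fr]) (t34 w s i)
  have c : Rch (St w (.s4 s i)) (St w (.s5 s i p)) :=
    mk_step (ν := some (s, i)) (by show dist s p ≠ 1; omega)
      (by simp [St]) (by simpa [St, Base, fr, hpe] using hf) (t45 w s i hpe)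
  exact (a.trans b).trans c

lemma real_a {p p' : Fin (N + 1)} (h : nb p p') {t t' : Tok m} (hp : w p = .inl t)
    (hp' : w p' = .inl t') : Rch (Base w) (Base (wswap w p p')) := by
  have hne := nb_ne h
  have a := rch_s3 w none p trivial (by rw [hp]; trivial)
  have b : Rch (St w (.s3 none p)) (St (wswap w p p') (.s3 none p')) :=
    mk_step (ν := none) (by exact h) (by simp [St])
      (by simp [St, Base, fr, hne.symm, hp', frO]) (t33 w none hne)
  have c := rch_s3 (wswap w p p') none p' trivial (by simp [wswap_apply, hp, frO])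
  exact (a.trans b).trans c.symm'

lemma real_b {s : Bool} {i : Fin m} {p p' : Fin (N + 1)} (h : nb p p') (he : EndOk w s i)
    (h1 : 2 ≤ dist s p) (h2 : 2 ≤ dist s p') (f1 : frO (some (s, i)) (w p))
    (f2 : frO (some (s, i)) (w p')) : Rch (Base w) (Base (wswap w p p')) := by
  have hne := nb_ne h
  have hpe : p ≠ endp N s := fun e => by rw [e, dist_endp] at h1; omega
  have hpe' : p' ≠ endp N s := fun e => by rw [e, dist_endp] at h2; omega
  have a := rch_s5 w s i p he h1 f1
  have b : Rch (St w (.s5 s i p)) (St (wswap w p p') (.s5 s i p')) :=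
    mk_step (ν := some (s, i)) (by exact h) (by simp [St, hpe])
      (by simpa [St, Base, fr, hne.symm, hpe'] using f2) (t55 w s i hne hpe hpe')
  have c := rch_s5 (wswap w p p') s i p' (by
    obtain ⟨t0, e0, a0⟩ := he
    refine ⟨t0, ?_, a0⟩
    rw [wswap_apply, Equiv.swap_apply_of_ne_of_ne hpe.symm hpe'.symm, e0]) h2
    (by simpa [wswap_apply] using f1)
  exact (a.trans b).trans c.symm'

lemma exists_toward (r : Bool) (p : Fin (N + 1)) (h : dist r p ≠ 0) :
    ∃ p', nb p p' ∧ dist r p' + 1 = dist r p := by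
  have := p.isLt
  cases r
  · simp only [dist, Bool.false_eq_true, if_false] at h ⊢
    exact ⟨⟨p.val - 1, by omega⟩, Or.inr (by simp; omega), by simp; omega⟩
  · simp only [dist, if_true] at h ⊢
    exact ⟨⟨p.val + 1, by omega⟩, Or.inl (by simp), by simp; omega⟩

/-- slide a token toward side `r` inside its gap -/
lemma slide (r : Bool) (t : Tok m) : ∀ (k : ℕ) (w : Fin (N + 1) ≃ Obj m L), Valid w D →
    dist r (w.symm (.inl t)) = k →
    ∃ w' : Fin (N + 1) ≃ Obj m L, Valid w' D ∧ Rch (Base w) (Base w') ∧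
      (∀ t', D t' ≠ D t → w'.symm (.inl t') = w.symm (.inl t')) ∧
      (w' (endp N r) = .inl t ∨ ∃ p p' j, nb p p' ∧ dist r p' + 1 = dist r p ∧
        w' p = .inl t ∧ w' p' = .inr j) := by
  intro k
  induction k with
  | zero =>
    intro w hv hk
    refine ⟨w, hv, Relation.ReflTransGen.refl, fun _ _ => rfl, Or.inl ?_⟩
    rw [← dist_eq_zero.1 hk]; simp
  | succ k ih =>
    intro w hv hk
    obtain ⟨p', hnb, hd⟩ := exists_toward r (w.symm (.inl t)) (by omega)
    have hp : w (w.symm (.inl t)) = .inl t := by simp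
    rcases hp' : w p' with t' | j
    · obtain ⟨hv1, hD⟩ := hv.swap_tok hnb hp hp'
      obtain ⟨w', a, b, c, d⟩ := ih (wswap w _ p') hv1 (by
        rw [wswap_symm_apply, Equiv.swap_apply_left]; omega)
      refine ⟨w', a, (real_a hnb hp hp').trans b, fun u hu => ?_, d⟩
      rw [c u hu, wswap_symm_apply, Equiv.swap_apply_of_ne_of_ne]
      · intro e
        have := w.symm.injective e
        simp at this
        exact hu (by rw [this])
      · intro e
        have : w (w.symm (.inl u)) = w p' := by rw [e]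
        rw [hp'] at this
        simp at this
        exact hu (by rw [this, hD])
    · exact ⟨w, hv, Relation.ReflTransGen.refl, fun _ _ => rfl,
        Or.inr ⟨_, p', j, hnb, hd, hp, hp'⟩⟩

/-- the digits seen at a token next to a filler -/
lemma Valid.next_fill (hv : Valid w D) {r : Bool} {p p' : Fin (N + 1)} {t : Tok m} {j : Fin L}
    (hnb : nb p p') (hd : dist r p' + 1 = dist r p) (hp : w p = .inl t) (hp' : w p' = .inr j) :
    D t = (if r then j.val else j.val + 1) ∧
      Valid (wswap w p p') (update D t (if r then j.val + 1 else j.val)) := by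
  have := p.isLt
  have := p'.isLt
  cases r
  · simp only [dist, Bool.false_eq_true, if_false] at hd ⊢
    have := hv.swap_down (p := p') (p' := p) (by omega) hp' hp
    rw [wswap_comm]
    exact this
  · simp only [dist, if_true] at hd ⊢
    exact hv.swap_up (by rcases hnb with h | h <;> omega) hp hp'

/-- a token crosses one filler when its key is at the right end -/
lemma pass (hL : L % 2 = 0) (hv : Valid w D) (r : Bool) (i : Fin m) (j : Fin L)
    (hD : D (.inr i) = if r then j.val else j.val + 1)
    (hk : D (key (color j) i) = ext L (color j)) :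
    ∃ w' : Fin (N + 1) ≃ Obj m L,
      Valid w' (update D (.inr i) (if r then j.val + 1 else j.val)) ∧ Rch (Base w) (Base w') := by
  have hj := j.isLt
  set s := color j with hs
  have hs' : (s = true ∧ j.val % 2 = 0) ∨ (s = false ∧ j.val % 2 = 1) := by
    rw [hs]; unfold color
    by_cases h : j.val % 2 = 0
    · simp [h]
    · simp [h]; omega
  obtain ⟨w1, v1, r1, -, d1⟩ := slide s (key s i) _ w hv rfl
  have e1 : w1 (endp N s) = .inl (key s i) := by
    rcases d1 with d1 | ⟨p, p', j', a, b, c, d⟩
    · exact d1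
    · have := (v1.next_fill a b c d).1
      have := j'.isLt
      rcases hs' with ⟨h, _⟩ | ⟨h, _⟩ <;> simp [h, ext] at * <;> omega
  have hne : D (key s i) ≠ D (.inr i) := by
    rw [hk, hD]
    rcases hs' with ⟨h, _⟩ | ⟨h, _⟩ <;> cases r <;> simp [h, ext] <;> omega
  obtain ⟨w2, v2, r2, c2, d2⟩ := slide r (.inr i) _ w1 v1 rfl
  have e2 : w2 (endp N s) = .inl (key s i) := by
    have := c2 _ hne
    rw [← e1, Equiv.symm_apply_apply, e1] at this
    rw [← this]; simp
  rcases d2 with d2 | ⟨p, p', j', a, b, c, d⟩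
  · have := v2.end_digit d2
    rw [hD] at this
    cases r <;> simp [ext] at this
    omega
  · obtain ⟨k1, k2⟩ := v2.next_fill a b c d
    have : j' = j := by
      apply Fin.ext
      rw [hD] at k1
      cases r <;> simp at k1 <;> omega
    subst this
    refine ⟨_, k2, (r1.trans r2).trans ?_⟩
    have x0 := symm_of_eq e2
    have x1 := symm_of_eq c
    have x2 := symm_of_eq d
    have pl := p.isLt
    have pl' := p'.isLt
    have dd : 2 ≤ dist s p ∧ 2 ≤ dist s p' := by
      rcases hs' with ⟨h, h'⟩ | ⟨h, h'⟩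
      · have hl : L - 1 < L := by omega
        have y1 := v2.mono j' ⟨L - 1, hl⟩ (by simp; omega)
        have y2 := v2.dig (.inr i) ⟨L - 1, hl⟩
        have y3 : (w2.symm (.inr ⟨L - 1, hl⟩)).val ≠ (w2.symm (.inl (key s i))).val :=
          symm_val_ne w2 (by simp)
        have y4 : (w2.symm (.inr ⟨L - 1, hl⟩)).val ≠ (w2.symm (.inl (.inr i))).val :=
          symm_val_ne w2 (by simp)
        have y5 := (w2.symm (.inr ⟨L - 1, hl⟩)).isLt
        have y6 : D (.inr i) ≤ j'.val + 1 := by rw [hD]; split_ifs <;> omega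
        simp only [h, endp, if_true, Fin.val_last] at x0 y3
        simp only [h, dist, if_true]
        simp only at y2
        omega
      · have hl : 0 < L := by omega
        have y1 := v2.mono ⟨0, hl⟩ j' (by simp; omega)
        have y2 := v2.dig (.inr i) ⟨0, hl⟩
        have y3 : (w2.symm (.inr ⟨0, hl⟩)).val ≠ (w2.symm (.inl (key s i))).val :=
          symm_val_ne w2 (by simp)
        have y6 : j'.val ≤ D (.inr i) := by rw [hD]; split_ifs <;> omega
        simp only [h, endp, Bool.false_eq_true, if_false, Fin.val_zero] at x0 y3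
        simp only [h, dist, Bool.false_eq_true, if_false]
        simp only at y2
        omega
    exact real_b (s := s) (i := i) a ⟨_, e2, Or.inr rfl⟩ dd.1 dd.2
      (by rw [c]; exact Or.inl rfl) (by rw [d]; exact hs.symm)

/-- `D'` agrees with `D` on the two keys and on the levels above `i` -/
def Above (i : ℕ) (D D' : Tok m → ℕ) : Prop :=
  (∀ s, D' (.inl s) = D (.inl s)) ∧ ∀ k : Fin m, i < k.val → D' (.inr k) = D (.inr k)

lemma go (hL : L % 2 = 0) : ∀ (n : ℕ) (i : Fin m), i.val = n → ∀ (r : Bool)
    (w : Fin (N + 1) ≃ Obj m L) (D : Tok m → ℕ), Valid w D → (∀ s, D (.inl s) = ext L s) →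
    ∃ (w' : Fin (N + 1) ≃ Obj m L) (D' : Tok m → ℕ), Valid w' D' ∧ Rch (Base w) (Base w') ∧
      D' (.inr i) = ext L r ∧ Above i.val D D' := by
  intro n
  induction n using Nat.strong_induction_on with
  | _ n ih =>
    intro i hi r
    have one : ∀ (w : Fin (N + 1) ≃ Obj m L) (D : Tok m → ℕ) (j : Fin L), Valid w D →
        (∀ s, D (.inl s) = ext L s) → (D (.inr i) = if r then j.val else j.val + 1) →
        ∃ (w' : Fin (N + 1) ≃ Obj m L) (D' : Tok m → ℕ), Valid w' D' ∧ Rch (Base w) (Base w') ∧
          D' (.inr i) = (if r then j.val + 1 else j.val) ∧ Above i.val D D' := by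
      intro w D j hv hs hD
      by_cases h0 : i.val = 0
      · obtain ⟨w', a, b⟩ := pass hL hv r i j hD (by simp [key, h0, hs])
        refine ⟨w', _, a, b, by simp, fun s => by simp, fun k hk => ?_⟩
        rw [update_of_ne]; simp [Fin.ext_iff]; omega
      · have hlt : i.val - 1 < m := by have := i.isLt; omega
        obtain ⟨w1, D1, a1, b1, c1, d1⟩ := ih (i.val - 1) (by omega) ⟨i.val - 1, hlt⟩ rfl
          (color j) w D hv hs
        obtain ⟨w', a, b⟩ := pass hL a1 r i j (by rw [d1.2 i (by simp; omega), hD])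
          (by simp [key, h0, c1])
        refine ⟨w', _, a, b1.trans b, by simp, fun s => by simp [d1.1], fun k hk => ?_⟩
        rw [update_of_ne, d1.2 k (by simp; omega)]; simp [Fin.ext_iff]; omega
    have main : ∀ (k : ℕ) (w : Fin (N + 1) ≃ Obj m L) (D : Tok m → ℕ), Valid w D →
        (∀ s, D (.inl s) = ext L s) → (if r then L - D (.inr i) else D (.inr i)) = k →
        ∃ (w' : Fin (N + 1) ≃ Obj m L) (D' : Tok m → ℕ), Valid w' D' ∧ Rch (Base w) (Base w') ∧
          D' (.inr i) = ext L r ∧ Above i.val D D' := by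
      intro k
      induction k with
      | zero =>
        intro w D hv hs hk
        refine ⟨w, D, hv, Relation.ReflTransGen.refl, ?_, fun _ => rfl, fun _ _ => rfl⟩
        have := hv.le (.inr i)
        cases r <;> simp [ext] at hk ⊢ <;> omega
      | succ k ihk =>
        intro w D hv hs hk
        have hle := hv.le (.inr i)
        obtain ⟨j, hj⟩ : ∃ j : Fin L, D (.inr i) = if r then j.val else j.val + 1 := by
          cases r
          · simp at hk
            exact ⟨⟨k, by omega⟩, by simp [hk]⟩
          · simp at hk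
            exact ⟨⟨D (.inr i), by omega⟩, by simp⟩
        obtain ⟨w1, D1, a1, b1, c1, d1⟩ := one w D j hv hs hj
        obtain ⟨w2, D2, a2, b2, c2, d2⟩ := ihk w1 D1 a1 (fun s => by rw [d1.1, hs]) (by
          cases r <;> simp at hk hj c1 ⊢ <;> omega)
        exact ⟨w2, D2, a2, b1.trans b2, c2, fun s => by rw [d2.1, d1.1],
          fun k hk => by rw [d2.2 k hk, d1.2 k hk]⟩
    intro w D hv hs
    exact main _ w D hv hs rfl

/-- position of each object in the first word -/
def u0 (m L : ℕ) : Obj m L → Fin (m + L + 1 + 1)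
  | .inl (.inl false) => ⟨0, by omega⟩
  | .inl (.inl true) => ⟨m + L + 1, by omega⟩
  | .inl (.inr i) => ⟨i.val + 1, by have := i.isLt; omega⟩
  | .inr j => ⟨m + 1 + j.val, by have := j.isLt; omega⟩

lemma u0_bij (m L : ℕ) : Bijective (u0 m L) := by
  rw [Fintype.bijective_iff_injective_and_card]
  constructor
  · rintro (((_ | _) | a) | a) (((_ | _) | b) | b) h <;>
      simp only [u0, Fin.mk.injEq] at h <;>
      first
        | rfl
        | (have := a.isLt; have := b.isLt; first | (congr 1; ext; omega) | (congr 2; ext; omega) | omega)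
        | (have := a.isLt; omega)
        | (have := b.isLt; omega)
        | omega
  · simp; ring

lemma exists_valid (m L : ℕ) : ∃ (w : Fin (m + L + 1 + 1) ≃ Obj m L) (D : Tok m → ℕ),
    Valid w D ∧ ∀ s, D (.inl s) = ext L s := by
  refine ⟨(Equiv.ofBijective _ (u0_bij m L)).symm, Sum.elim (ext L) (fun _ => 0), ⟨?_, ?_, ?_⟩,
    fun _ => rfl⟩
  · intro j j' h
    simp [u0, h]
  · rintro ((_ | _) | i) j
    · simp [u0, ext]
    · have := j.isLt
      simp [u0, ext]; omega
    · have := i.isLt
      simp [u0]; omega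
  · rintro ((_ | _) | i) <;> simp [ext]

lemma steps_of_rch {σ τ : Pos m N → Per m L} (h : Rch σ τ) : ∃ k, Steps k σ τ := by
  induction h using Relation.ReflTransGen.head_induction_on with
  | refl => exact ⟨0, Steps.refl _⟩
  | head hs _ ih => obtain ⟨k, hk⟩ := ih; exact ⟨k + 1, Steps.cons hs hk⟩

theorem far_pair (hL : L % 2 = 0) (hL0 : 0 < L) (hm : 0 < m) :
    ∃ w w' : Fin (m + L + 1 + 1) ≃ Obj m L, Rch (Base w) (Base w') ∧
      ∀ k, Steps k (Base w) (Base w') → MM L (m - 1) ≤ k := by
  obtain ⟨w, D, hv, hs⟩ := exists_valid m L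
  obtain ⟨w1, D1, a1, b1, c1, -⟩ := go hL _ ⟨m - 1, by omega⟩ rfl false w D hv hs
  obtain ⟨w2, D2, a2, b2, c2, -⟩ := go hL _ ⟨m - 1, by omega⟩ rfl true w D hv hs
  refine ⟨w1, w2, b1.symm'.trans b2, fun k hk => ?_⟩
  have := lower_bound hL a1 a2 hk
  have e1 : lev D1 (m - 1) = ext L false := (lev_val D1 ⟨m - 1, by omega⟩).trans c1
  have e2 : lev D2 (m - 1) = ext L true := (lev_val D2 ⟨m - 1, by omega⟩).trans c2
  rw [psi_ext hL0 e1, psi_ext hL0 e2] at this
  simp only [Bool.false_eq_true, if_false, if_true, zero_sub, abs_neg] at this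
  exact (le_abs_self _).trans this

end Pool.Agent.Lib.MP_f87a07_co
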