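import Pool.Agent.Lib.MP_f87a07_co.Reach

/-!
Transfer to graphs on `Fin n`.
-/

set_option autoImplicit false

namespace Pool.Agent.Lib.MP_f87a07_co

open Function

/-- the extra positions as a sum type -/
def extEquiv (m : ℕ) : Ext m ≃ Unit ⊕ Mv m ⊕ Mv m ⊕ Bool where
  toFun
    | .hub => .inl ()
    | .c μ => .inr (.inl μ)
    | .d μ => .inr (.inr (.inl μ))
    | .q s => .inr (.inr (.inr s))
  invFun
    | .inl _ => .hub
    | .inr (.inl μ) => .c μ
    | .inr (.inr (.inl μ)) => .d μ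
    | .inr (.inr (.inr s)) => .q s
  left_inv := by rintro (_ | _ | _ | _) <;> rfl
  right_inv := by rintro (_ | _ | _ | _) <;> rfl

instance extFintype (m : ℕ) : Fintype (Ext m) := Fintype.ofEquiv _ (extEquiv m).symm

lemma card_ext (m : ℕ) : Fintype.card (Ext m) = 4 * m + 5 := by
  rw [Fintype.card_congr (extEquiv m)]
  simp; ring

/-- the friends-and-strangers graph -/
abbrev FS {n : ℕ} (X Y : SimpleGraph (Fin n)) : SimpleGraph (Equiv.Perm (Fin n)) :=
  SimpleGraph.fromRel (fun s t : Equiv.Perm (Fin n) =>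
    ∃ a b : Fin n, X.Adj a b ∧ Y.Adj (s a) (s b) ∧ t = s * Equiv.swap a b)

section

variable {m L N n : ℕ} (eP : Pos m N ≃ Fin n) (eQ : Per m L ≃ Fin n)

/-- the graph of positions -/
def GX : SimpleGraph (Fin n) where
  Adj a b := xadj (eP.symm a) (eP.symm b)
  symm := ⟨fun _ _ h => xadj_symm h⟩
  loopless := ⟨fun _ h => xadj_irrefl _ h⟩

/-- the graph of persons -/
def GY : SimpleGraph (Fin n) where
  Adj a b := yadj (eQ.symm a) (eQ.symm b)
  symm := ⟨fun _ _ h => yadj_symm h⟩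
  loopless := ⟨fun _ h => yadj_irrefl _ h⟩

/-- the configuration of a permutation -/
def cfg (σ : Equiv.Perm (Fin n)) : Pos m N → Per m L := fun x => eQ.symm (σ (eP x))

lemma cfg_swap (σ : Equiv.Perm (Fin n)) (a b : Pos m N) :
    cfg eP eQ (σ * Equiv.swap (eP a) (eP b)) = cfg eP eQ σ ∘ Equiv.swap a b := by
  funext x
  simp only [cfg, comp, Equiv.Perm.coe_mul]
  rw [eP.injective.swap_apply]

lemma cfg_inj {σ τ : Equiv.Perm (Fin n)} (h : cfg eP eQ σ = cfg eP eQ τ) : σ = τ := by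
  ext x : 1
  have := congrFun h (eP.symm x)
  simpa [cfg] using this

lemma step_of_adj {σ τ : Equiv.Perm (Fin n)} (h : (FS (GX eP) (GY eQ)).Adj σ τ) :
    Step (cfg eP eQ σ) (cfg eP eQ τ) := by
  have key : ∀ s t : Equiv.Perm (Fin n), (∃ a b : Fin n, (GX eP).Adj a b ∧
      (GY eQ).Adj (s a) (s b) ∧ t = s * Equiv.swap a b) → Step (cfg eP eQ s) (cfg eP eQ t) := by
    rintro s t ⟨a, b, h1, h2, rfl⟩
    refine ⟨eP.symm a, eP.symm b, h1, by simpa [cfg, GY] using h2, ?_⟩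
    rw [← cfg_swap]; simp
  rw [SimpleGraph.fromRel_adj] at h
  rcases h.2 with h | h
  · exact key _ _ h
  · exact (key _ _ h).symm

lemma steps_of_walk {σ τ : Equiv.Perm (Fin n)} (p : (FS (GX eP) (GY eQ)).Walk σ τ) :
    Steps p.length (cfg eP eQ σ) (cfg eP eQ τ) := by
  induction p with
  | nil => exact Steps.refl _
  | cons h _ ih => exact Steps.cons (step_of_adj eP eQ h) ih

lemma reach_of_rch {σ : Equiv.Perm (Fin n)} {ρ : Pos m N → Per m L}
    (h : Rch (cfg eP eQ σ) ρ) : ∃ τ, ρ = cfg eP eQ τ ∧ (FS (GX eP) (GY eQ)).Reachable σ τ := by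
  induction h with
  | refl => exact ⟨σ, rfl, SimpleGraph.Reachable.refl _⟩
  | tail _ hs ih =>
    obtain ⟨τ, rfl, hr⟩ := ih
    obtain ⟨a, b, h1, h2, rfl⟩ := hs
    refine ⟨τ * Equiv.swap (eP a) (eP b), (cfg_swap eP eQ τ a b).symm, ?_⟩
    by_cases e : τ = τ * Equiv.swap (eP a) (eP b)
    · rw [← e]; exact hr
    · refine hr.trans (SimpleGraph.Adj.reachable ?_)
      rw [SimpleGraph.fromRel_adj]
      exact ⟨e, Or.inl ⟨eP a, eP b, by simpa [GX] using h1, h2, rfl⟩⟩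

end

theorem exists_far (m L : ℕ) (hL : L % 2 = 0) (hL0 : 0 < L) (hm : 0 < m) :
    ∃ (X Y : SimpleGraph (Fin (L + 5 * m + 7))) (σ τ : Equiv.Perm (Fin (L + 5 * m + 7))),
      (FS X Y).Reachable σ τ ∧ L * (L - 1) ^ (m - 1) ≤ (FS X Y).dist σ τ := by
  obtain ⟨w, w', hr, hb⟩ := far_pair hL hL0 hm
  let eP : Pos m (m + L + 1) ≃ Fin (L + 5 * m + 7) :=
    Fintype.equivFinOfCardEq (by simp [card_ext]; ring)
  let eQ : Per m L ≃ Fin (L + 5 * m + 7) := (Equiv.sumCongr w (Equiv.refl _)).symm.trans eP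
  have h1 : Base w = cfg eP eQ 1 := by
    funext x
    simp [cfg, eQ, Base]
  rw [h1] at hr hb
  obtain ⟨τ, e, hτ⟩ := reach_of_rch eP eQ hr
  refine ⟨GX eP, GY eQ, 1, τ, hτ, ?_⟩
  obtain ⟨p, hp⟩ := hτ.exists_walk_length_eq_dist
  have := hb _ (e ▸ steps_of_walk eP eQ p)
  rw [hp, MM] at this
  zify [show 1 ≤ L from hL0]
  exact this

theorem not_exp_bound : ¬ (∃ C : ℝ, ∀ n : ℕ, ∀ X Y : SimpleGraph (Fin n),
    ∀ σ τ : Equiv.Perm (Fin n), (FS X Y).Reachable σ τ →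
      (((FS X Y).dist σ τ : ℕ) : ℝ) ≤ Real.exp (C * n)) := by
  rintro ⟨C, hC⟩
  obtain ⟨m, hm⟩ := exists_nat_gt (Real.exp (14 * |C|))
  have h1 : (1 : ℝ) ≤ Real.exp (14 * |C|) := Real.one_le_exp (by positivity)
  have hm1 : 1 < m := by exact_mod_cast h1.trans_lt hm
  obtain ⟨X, Y, σ, τ, hr, hd⟩ := exists_far m (2 * m) (by omega) (by omega) (by omega)
  have h2 := hC _ X Y σ τ hr
  have h3 : m ^ m ≤ 2 * m * (2 * m - 1) ^ (m - 1) := by
    calc m ^ m = m * m ^ (m - 1) := by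
          rw [← pow_succ']; congr 1; omega
      _ ≤ 2 * m * (2 * m - 1) ^ (m - 1) :=
          Nat.mul_le_mul (by omega) (Nat.pow_le_pow_left (by omega) _)
  have h4 : ((m : ℝ)) ^ m ≤ ((FS X Y).dist σ τ : ℕ) := by exact_mod_cast h3.trans hd
  have h5 : Real.exp (C * ((2 * m + 5 * m + 7 : ℕ) : ℝ)) ≤ Real.exp (14 * |C|) ^ m := by
    rw [← Real.exp_nat_mul]
    apply Real.exp_le_exp.2
    have a : (1 : ℝ) ≤ m := by exact_mod_cast hm1.le
    have b := le_abs_self C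
    have c := abs_nonneg C
    push_cast
    nlinarith
  have h6 : Real.exp (14 * |C|) ^ m < (m : ℝ) ^ m :=
    pow_lt_pow_left₀ hm (by positivity) (by omega)
  linarith

end Pool.Agent.Lib.MP_f87a07_co
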