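import Mathlib

/-!
Words in the corridor: tokens and fillers, the digit of a token is the number of fillers to its left.
-/

set_option autoImplicit false

namespace Pool.Agent.Lib.MP_f87a07_co

open Function

/-- tokens: two end keys and `m` levels -/
abbrev Tok (m : ℕ) := Bool ⊕ Fin m

/-- corridor objects: tokens and `L` fillers -/
abbrev Obj (m L : ℕ) := Tok m ⊕ Fin L

variable {m L N : ℕ}

/-- distance of a corridor position from the left (`false`) or right (`true`) end -/
def dist (s : Bool) (p : Fin (N + 1)) : ℕ := if s then N - p.val else p.val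

/-- the end position of a side -/
def endp (N : ℕ) (s : Bool) : Fin (N + 1) := if s then Fin.last N else 0

/-- colour of a filler -/
def color (j : Fin L) : Bool := decide (j.val % 2 = 0)

/-- extreme digit of a side -/
def ext (L : ℕ) (s : Bool) : ℕ := if s then L else 0

lemma dist_endp (s : Bool) : dist s (endp N s) = 0 := by
  cases s <;> simp [dist, endp]

lemma dist_eq_zero {s : Bool} {p : Fin (N + 1)} : dist s p = 0 ↔ p = endp N s := by
  have := p.isLt
  rw [Fin.ext_iff]
  cases s <;> simp only [dist, endp, Bool.false_eq_true, if_false, if_true, Fin.val_zero,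
    Fin.val_last]
  omega

lemma dist_inj {s : Bool} {p p' : Fin (N + 1)} (h : dist s p = dist s p') : p = p' := by
  have := p.isLt
  have := p'.isLt
  apply Fin.ext
  cases s <;> simp only [dist, Bool.false_eq_true, if_false, if_true] at h <;> omega

/-- adjacency in the corridor -/
def nb (p p' : Fin (N + 1)) : Prop := p.val + 1 = p'.val ∨ p'.val + 1 = p.val

lemma nb_symm {p p' : Fin (N + 1)} (h : nb p p') : nb p' p := Or.symm h

lemma nb_ne {p p' : Fin (N + 1)} (h : nb p p') : p ≠ p' := by
  rintro rfl
  rcases h with h | h <;> omega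

lemma nb_dist (s : Bool) {p p' : Fin (N + 1)} (h : nb p p') :
    dist s p + 1 = dist s p' ∨ dist s p' + 1 = dist s p := by
  have := p.isLt
  have := p'.isLt
  cases s <;> simp [dist] <;> rcases h with h | h <;> omega

/-- the word after exchanging two positions -/
def wswap (w : Fin (N + 1) ≃ Obj m L) (p p' : Fin (N + 1)) : Fin (N + 1) ≃ Obj m L :=
  (Equiv.swap p p').trans w

lemma wswap_apply (w : Fin (N + 1) ≃ Obj m L) (p p' x : Fin (N + 1)) :
    wswap w p p' x = w (Equiv.swap p p' x) := rfl

lemma wswap_symm_apply (w : Fin (N + 1) ≃ Obj m L) (p p' : Fin (N + 1)) (o : Obj m L) :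
    (wswap w p p').symm o = Equiv.swap p p' (w.symm o) := by
  simp [wswap]

lemma wswap_comm (w : Fin (N + 1) ≃ Obj m L) (p p' : Fin (N + 1)) :
    wswap w p p' = wswap w p' p := by
  simp [wswap, Equiv.swap_comm]

/-- `w` keeps the fillers in order and `D` is its digit vector -/
structure Valid (w : Fin (N + 1) ≃ Obj m L) (D : Tok m → ℕ) : Prop where
  mono : ∀ j j' : Fin L, j.val < j'.val → (w.symm (.inr j)).val < (w.symm (.inr j')).val
  dig : ∀ (t : Tok m) (j : Fin L), j.val < D t ↔ (w.symm (.inr j)).val < (w.symm (.inl t)).val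
  le : ∀ t, D t ≤ L

lemma swap_val (p p' x : Fin (N + 1)) :
    (Equiv.swap p p' x).val =
      if x.val = p.val then p'.val else if x.val = p'.val then p.val else x.val := by
  rw [Equiv.swap_apply_def]
  simp only [Fin.ext_iff]
  split_ifs <;> rfl

lemma symm_val_ne (w : Fin (N + 1) ≃ Obj m L) {o o' : Obj m L} (h : o ≠ o') :
    (w.symm o).val ≠ (w.symm o').val := fun e => h (w.symm.injective (Fin.ext e))

lemma symm_of_eq {w : Fin (N + 1) ≃ Obj m L} {p : Fin (N + 1)} {o : Obj m L} (h : w p = o) :
    (w.symm o).val = p.val := by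
  rw [← h]; simp

namespace Valid

variable {w : Fin (N + 1) ≃ Obj m L} {D : Tok m → ℕ}

lemma swap_tok_aux (hv : Valid w D) {p p' : Fin (N + 1)} (h : p.val + 1 = p'.val) {t t' : Tok m}
    (hp : w p = .inl t) (hp' : w p' = .inl t') : Valid (wswap w p p') D ∧ D t = D t' := by
  have e1 := symm_of_eq hp
  have e2 := symm_of_eq hp'
  have n1 : ∀ j : Fin L, (w.symm (.inr j)).val ≠ p.val := fun j => by
    rw [← e1]; exact symm_val_ne w (by simp)
  have n2 : ∀ j : Fin L, (w.symm (.inr j)).val ≠ p'.val := fun j => by
    rw [← e2]; exact symm_val_ne w (by simp)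
  refine ⟨⟨?_, ?_, hv.le⟩, ?_⟩
  · intro j j' hj
    have := hv.mono j j' hj
    have := n1 j; have := n2 j; have := n1 j'; have := n2 j'
    simp only [wswap_symm_apply, swap_val]
    split_ifs <;> omega
  · intro u j
    rw [hv.dig]
    have := n1 j; have := n2 j
    simp only [wswap_symm_apply, swap_val]
    split_ifs <;> omega
  · have k : ∀ j : Fin L, j.val < D t ↔ j.val < D t' := fun j => by
      rw [hv.dig, hv.dig, e1, e2]
      have := n1 j; have := n2 j
      omega
    have l1 := hv.le t
    have l2 := hv.le t'
    by_contra hne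
    rcases Nat.lt_or_gt_of_ne hne with h' | h'
    · have := k ⟨D t, by omega⟩
      simp at this; omega
    · have := k ⟨D t', by omega⟩
      simp at this; omega

lemma swap_tok (hv : Valid w D) {p p' : Fin (N + 1)} (h : nb p p') {t t' : Tok m}
    (hp : w p = .inl t) (hp' : w p' = .inl t') : Valid (wswap w p p') D ∧ D t = D t' := by
  rcases h with h | h
  · exact hv.swap_tok_aux h hp hp'
  · have := hv.swap_tok_aux h hp' hp
    rw [wswap_comm]
    exact ⟨this.1, this.2.symm⟩

lemma digit_eq (hv : Valid w D) {t : Tok m} {v : ℕ} (hv' : v ≤ L)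
    (h : ∀ j : Fin L, j.val < v ↔ (w.symm (.inr j)).val < (w.symm (.inl t)).val) : D t = v := by
  have l1 := hv.le t
  by_contra hne
  rcases Nat.lt_or_gt_of_ne hne with h' | h'
  · have a := h ⟨D t, by omega⟩
    have b := hv.dig t ⟨D t, by omega⟩
    simp at a b; omega
  · have a := h ⟨v, by omega⟩
    have b := hv.dig t ⟨v, by omega⟩
    simp at a b; omega

lemma mono_iff (hv : Valid w D) (j j' : Fin L) :
    j.val < j'.val ↔ (w.symm (.inr j)).val < (w.symm (.inr j')).val := by
  refine ⟨hv.mono j j', fun h => ?_⟩
  by_contra hn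
  rcases Nat.eq_or_lt_of_not_lt hn with h' | h'
  · have : j = j' := Fin.ext h'
    subst this; omega
  · have := hv.mono j' j h'; omega

lemma swap_up (hv : Valid w D) {p p' : Fin (N + 1)} (h : p.val + 1 = p'.val) {t : Tok m}
    {j : Fin L} (hp : w p = .inl t) (hp' : w p' = .inr j) :
    D t = j.val ∧ Valid (wswap w p p') (update D t (j.val + 1)) := by
  have e1 := symm_of_eq hp
  have e2 := symm_of_eq hp'
  have n1 : ∀ j : Fin L, (w.symm (.inr j)).val ≠ p.val := fun j => by
    rw [← e1]; exact symm_val_ne w (by simp)
  refine ⟨?_, ⟨?_, ?_, ?_⟩⟩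
  · apply hv.digit_eq j.isLt.le
    intro j'
    rw [hv.mono_iff, e1, e2]
    have := n1 j'
    omega
  · intro a b hab
    have := hv.mono a b hab
    have := n1 a; have := n1 b
    simp only [wswap_symm_apply, swap_val]
    split_ifs <;> omega
  · intro u a
    by_cases hu : u = t
    · subst hu
      have := hv.mono_iff j a
      have := n1 a
      simp only [update_self, wswap_symm_apply, swap_val]
      split_ifs <;> omega
    · rw [update_of_ne hu, hv.dig]
      have := n1 a
      have k1 : (w.symm (.inl u)).val ≠ p.val := by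
        rw [← e1]; exact symm_val_ne w (by simpa using hu)
      have k2 : (w.symm (.inl u)).val ≠ p'.val := by
        rw [← e2]; exact symm_val_ne w (by simp)
      simp only [wswap_symm_apply, swap_val]
      split_ifs <;> omega
  · intro u
    by_cases hu : u = t
    · subst hu; simp only [update_self]; exact j.isLt
    · rw [update_of_ne hu]; exact hv.le u

lemma swap_down (hv : Valid w D) {p p' : Fin (N + 1)} (h : p.val + 1 = p'.val) {t : Tok m}
    {j : Fin L} (hp : w p = .inr j) (hp' : w p' = .inl t) :
    D t = j.val + 1 ∧ Valid (wswap w p p') (update D t j.val) := by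
  have e1 := symm_of_eq hp
  have e2 := symm_of_eq hp'
  have n1 : ∀ j : Fin L, (w.symm (.inr j)).val ≠ p'.val := fun j => by
    rw [← e2]; exact symm_val_ne w (by simp)
  refine ⟨?_, ⟨?_, ?_, ?_⟩⟩
  · apply hv.digit_eq j.isLt
    intro j'
    have := hv.mono_iff j j'
    have := n1 j'
    omega
  · intro a b hab
    have := hv.mono a b hab
    have := n1 a; have := n1 b
    simp only [wswap_symm_apply, swap_val]
    split_ifs <;> omega
  · intro u a
    by_cases hu : u = t
    · subst hu
      have := hv.mono_iff a j
      have := n1 a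
      simp only [update_self, wswap_symm_apply, swap_val]
      split_ifs <;> omega
    · rw [update_of_ne hu, hv.dig]
      have := n1 a
      have k1 : (w.symm (.inl u)).val ≠ p'.val := by
        rw [← e2]; exact symm_val_ne w (by simpa using hu)
      have k2 : (w.symm (.inl u)).val ≠ p.val := by
        rw [← e1]; exact symm_val_ne w (by simp)
      simp only [wswap_symm_apply, swap_val]
      split_ifs <;> omega
  · intro u
    by_cases hu : u = t
    · subst hu; simp only [update_self]; exact j.isLt.le
    · rw [update_of_ne hu]; exact hv.le u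

lemma fill_succ (hv : Valid w D) {p p' : Fin (N + 1)} (h : p.val + 1 = p'.val)
    {j j' : Fin L} (hp : w p = .inr j) (hp' : w p' = .inr j') : j'.val = j.val + 1 := by
  have e1 := symm_of_eq hp
  have e2 := symm_of_eq hp'
  have h1 := (hv.mono_iff j j').2 (by omega)
  by_contra hne
  have hlt : j.val + 1 < L := by have := j'.isLt; omega
  have a := hv.mono j ⟨j.val + 1, hlt⟩ (by simp)
  have b := hv.mono ⟨j.val + 1, hlt⟩ j' (by simp; omega)
  omega

lemma fill_color (hv : Valid w D) {p p' : Fin (N + 1)} (h : nb p p')
    {j j' : Fin L} (hp : w p = .inr j) (hp' : w p' = .inr j') : color j ≠ color j' := by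
  rcases h with h | h
  · have := hv.fill_succ h hp hp'
    simp [color]; omega
  · have := hv.fill_succ h hp' hp
    simp [color]; omega

lemma first_color (hv : Valid w D) (hL : L % 2 = 0) {s : Bool} {p : Fin (N + 1)} {j : Fin L}
    (hp : w p = .inr j) (h : ∀ p', dist s p' < dist s p → ∃ t, w p' = .inl t) : color j ≠ s := by
  have e1 := symm_of_eq hp
  have hj := j.isLt
  cases s
  · have : j.val = 0 := by
      by_contra hne
      have a := hv.mono ⟨0, by omega⟩ j (by simp; omega)
      obtain ⟨t, ht⟩ := h (w.symm (.inr ⟨0, by omega⟩)) (by simp [dist]; omega)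
      simp at ht
    simp [color, this]
  · have : j.val = L - 1 := by
      by_contra hne
      have a := hv.mono j ⟨L - 1, by omega⟩ (by simp; omega)
      have b := (w.symm (.inr ⟨L - 1, by omega⟩)).isLt
      obtain ⟨t, ht⟩ := h (w.symm (.inr ⟨L - 1, by omega⟩)) (by simp [dist]; omega)
      simp at ht
    simp [color, this]; omega

lemma end_digit (hv : Valid w D) {s : Bool} {t : Tok m} (h : w (endp N s) = .inl t) :
    D t = ext L s := by
  have e1 := symm_of_eq h
  cases s
  · apply hv.digit_eq (by simp [ext])
    intro j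
    simp [endp] at e1
    simp [ext, e1]
  · apply hv.digit_eq (by simp [ext])
    intro j
    have a := (w.symm (.inr j)).isLt
    have b : (w.symm (.inr j)).val ≠ (w.symm (.inl t)).val := symm_val_ne w (by simp)
    simp [endp] at e1
    have := j.isLt
    simp only [ext, if_true]
    omega

end Valid

end Pool.Agent.Lib.MP_f87a07_co
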